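import Pool.Agent.EDX.Stmts1

/-!
# EDX squad, row STR (the first multiplier)
-/

set_option autoImplicit false

namespace Pool.Agent.EDX.H38

open Polynomial Finset Pool.Agent.EDG Module Pool.Agent.EDX

section gen

variable {k₀ V R : Type} [Field k₀] [AddCommGroup V] [Module k₀ V] [CommRing R]

theorem mem_pr {ρ : R →+* Module.End k₀ V} {S : Finset R} {U : Submodule k₀ V} {w : R}
    (hw : w ∈ S) {u : V} (hu : u ∈ U) : ρ w u ∈ pr ρ S U := by
  unfold pr
  exact Submodule.mem_iSup_of_mem w (Submodule.mem_iSup_of_mem hw (Submodule.mem_map_of_mem hu))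

theorem pr_fin (ρ : R →+* Module.End k₀ V) (S : Finset R) (U : Submodule k₀ V)
    (hU : FiniteDimensional k₀ U) : FiniteDimensional k₀ (pr ρ S U) := by
  unfold pr
  rw [← Finset.sup_eq_iSup]
  exact Submodule.finiteDimensional_finset_sup S _

theorem it_fin (ρ : R →+* Module.End k₀ V) (S : Finset R) (U : Submodule k₀ V)
    (hU : FiniteDimensional k₀ U) (m : ℕ) : FiniteDimensional k₀ ((pr ρ S)^[m] U) := by
  induction m with
  | zero => exact hU
  | succ m ih =>
    rw [Function.iterate_succ_apply']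
    exact pr_fin ρ S _ ih

end gen

/-- the products of the digits -/
theorem mem_it (h3 : HprStmt) (S : Finset KK[X]) (q b k' : ℕ)
    (hS : ∀ j < b, ∀ a < 2 ^ q, 2 ^ (q * j) * a < 2 ^ k' → hK (2 ^ (q * j) * a) ∈ S)
    (U : Submodule ℚ (KK[X] →ₗ[KK] KK)) (m : ℕ) :
    m ≤ b → ∀ e, e < 2 ^ (q * m) → e < 2 ^ k' → ∀ u ∈ U,
      mulF (hK e) u ∈ (pr mulF S)^[m] U := by
  induction m with
  | zero =>
    intro _ e he _ u hu
    have h0 : e = 0 := by simpa using he
    subst h0
    have h1 : hK 0 = 1 := by rw [hK, h_zero, Polynomial.map_one]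
    rw [h1, map_one]
    exact hu
  | succ m ih =>
    intro hm e he hek u hu
    rw [Function.iterate_succ_apply']
    have hp : 0 < 2 ^ (q * m) := by positivity
    have h1 : 2 ^ (q * m) * (e / 2 ^ (q * m)) + e % 2 ^ (q * m) = e := Nat.div_add_mod _ _
    have h2 : e % 2 ^ (q * m) < 2 ^ (q * m) := Nat.mod_lt _ hp
    have h4 : hK e = hK (2 ^ (q * m) * (e / 2 ^ (q * m))) * hK (e % 2 ^ (q * m)) := by
      have h5 := h3 (q * m) (e / 2 ^ (q * m)) (e % 2 ^ (q * m)) h2
      rw [h1] at h5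
      rw [hK, h5, Polynomial.map_mul, hK, hK]
    have h6 : e / 2 ^ (q * m) < 2 ^ q := by
      rw [Nat.div_lt_iff_lt_mul hp, ← pow_add]
      have : q + q * m = q * (m + 1) := by ring
      rw [this]
      exact he
    rw [h4, map_mul]
    have h7 : mulF (hK (e % 2 ^ (q * m))) u ∈ (pr mulF S)^[m] U :=
      ih (by omega) _ h2 (lt_of_le_of_lt (Nat.mod_le _ _) hek) u hu
    have h8 : hK (2 ^ (q * m) * (e / 2 ^ (q * m))) ∈ S :=
      hS m (by omega) _ h6 (lt_of_le_of_lt (by omega) hek)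
    exact mem_pr h8 h7

/-- multiplication by a polynomial of degree `< a` -/
theorem mulF_ZZ (w : KK[X]) (a r : ℕ) (hw : w.degree < (a : WithBot ℕ)) :
    (ZZ (r + a)).map (mulF w) ≤ ZZ r := by
  rintro _ ⟨μ, hμ, rfl⟩
  rw [mem_ZZ]
  intro f hf
  rw [mulF_apply]
  refine hμ _ ?_
  by_cases hf0 : f = 0
  · rw [hf0, mul_zero, degree_zero]; exact WithBot.bot_lt_coe _
  by_cases hw0 : w = 0
  · rw [hw0, zero_mul, degree_zero]; exact WithBot.bot_lt_coe _
  rw [degree_eq_natDegree hf0] at hf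
  rw [degree_eq_natDegree hw0] at hw
  rw [degree_eq_natDegree (mul_ne_zero hw0 hf0), natDegree_mul hw0 hf0]
  have h1 : f.natDegree < r := by exact_mod_cast hf
  have h2 : w.natDegree < a := by exact_mod_cast hw
  exact_mod_cast (by omega : w.natDegree + f.natDegree < r + a)

theorem mu_inj (h6 : InjStmt) {n : ℕ} {g : ℤ[X]} (hc : Cyc n g) :
    Function.Injective (mu n g) := by
  rw [injective_iff_map_eq_zero]
  intro P hP
  refine h6 n g hc P fun e _ => ?_
  rw [hP, LinearMap.zero_apply]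

theorem str (h1 : PetStmt) (h2 : KrkStmt) (h3 : HprStmt) (h4 : HpcStmt) (h5 : WmuStmt)
    (h6 : InjStmt) : StrStmt := by
  classical
  intro n g hc q k k' b d hq hb hk' hkk hN hM
  have hinj : Function.Injective (mu n g) := mu_inj h6 hc
  set SZ : Finset ℤ[X][X] := (range q).image (fun t => C ((X : ℤ[X]) ^ t)) ∪
    ((range b ×ˢ range (2 ^ q)).filter (fun x => 2 ^ (q * x.1) * x.2 < 2 ^ k')).image
      (fun x => h (2 ^ (q * x.1) * x.2)) with hSZ
  have hpk : 0 < 2 ^ k' := by positivity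
  -- the properties of the elements of `SZ`
  have hprop : ∀ w ∈ SZ, (w.map iK).degree < ((2 ^ k' : ℕ) : WithBot ℕ) ∧
      ∀ e < 2 ^ k' + b * 2 ^ k', InF (2 ^ k) (q + 1) (w * h e) := by
    intro w hw
    rw [hSZ, mem_union, mem_image, mem_image] at hw
    rcases hw with ⟨t, ht, rfl⟩ | ⟨⟨j, a⟩, hx, rfl⟩
    · rw [mem_range] at ht
      constructor
      · rw [Polynomial.map_C]
        refine lt_of_le_of_lt degree_C_le ?_
        exact_mod_cast hpk
      · intro e he
        have hd : ((X : ℤ[X]) ^ t).degree < (q : WithBot ℕ) := by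
          rw [degree_X_pow]
          exact_mod_cast ht
        have h7 := (InF_h e).mulC ((X : ℤ[X]) ^ t) hd
        refine h7.mono ?_ (by omega)
        have : 2 ^ k' + b * 2 ^ k' ≤ (b + 2) * 2 ^ k' := by nlinarith
        omega
    · rw [mem_filter, mem_product, mem_range, mem_range] at hx
      obtain ⟨⟨hj, ha⟩, hja⟩ := hx
      dsimp only at hj ha hja ⊢
      constructor
      · have h8 : ((h (2 ^ (q * j) * a)).map iK).degree
            = ((2 ^ (q * j) * a : ℕ) : WithBot ℕ) := hK_degree _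
        rw [h8]
        exact_mod_cast hja
      · intro e he
        have h7 := h4 (q * j) q a e ha
        refine h7.mono ?_ le_rfl
        have : (b + 2) * 2 ^ k' = 2 ^ k' + (2 ^ k' + b * 2 ^ k') := by ring
        omega
  set S : Finset KK[X] := SZ.image (fun w => w.map iK) with hS
  have hS1 : ∀ w ∈ S, ∀ r, (ZZ (r + 2 ^ k')).map (mulF w) ≤ ZZ r := by
    intro w hw r
    rw [hS, mem_image] at hw
    obtain ⟨w', hw', rfl⟩ := hw
    exact mulF_ZZ _ _ _ (hprop w' hw').1
  -- `U₀`
  have hfin : FiniteDimensional ℚ (Fin n × Fin g.natDegree → ℚ) := inferInstance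
  have hcard : finrank ℚ (Fin n × Fin g.natDegree → ℚ) = n * g.natDegree := by
    rw [Module.finrank_fintype_fun_eq_card, Fintype.card_prod, Fintype.card_fin,
      Fintype.card_fin]
  set U₀ : Submodule ℚ (KK[X] →ₗ[KK] KK) := (LQ n g q k).map (mu n g) with hU₀
  have hU₀f : FiniteDimensional ℚ U₀ := by
    rw [hU₀]; infer_instance
  have hU₀r : finrank ℚ U₀ = finrank ℚ (LQ n g q k) :=
    (Submodule.equivMapOfInjective (mu n g) hinj (LQ n g q k)).finrank_eq.symm
  -- the dimension of `S U₀` modulo `ZZ`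
  have hdr : dr (ZZ (2 ^ k' + b * 2 ^ k')) (pr mulF S U₀) ≤ n * g.natDegree := by
    have h7 : (pr mulF S U₀).map (ZZ (2 ^ k' + b * 2 ^ k')).mkQ ≤
        (LinearMap.range (mu n g)).map (ZZ (2 ^ k' + b * 2 ^ k')).mkQ := by
      have h8 : pr mulF S U₀ ≤ LinearMap.range (mu n g) ⊔ ZZ (2 ^ k' + b * 2 ^ k') := by
        unfold pr
        refine iSup₂_le fun w hw => ?_
        rw [hS, mem_image] at hw
        obtain ⟨w', hw', rfl⟩ := hw
        rintro _ ⟨μ, hμ, rfl⟩
        obtain ⟨P, hP, rfl⟩ := hμ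
        have h9 := h5 n g hc q k (2 ^ k' + b * 2 ^ k') w' P hP (hprop w' hw').2
        rw [Submodule.mem_sup]
        refine ⟨mu n g (act n g w' P), ⟨_, rfl⟩,
          mulF (w'.map iK) (mu n g P) - mu n g (act n g w' P), ?_, by abel⟩
        rw [mem_ZZ]
        intro f hf
        rw [LinearMap.sub_apply, mulF_apply, h9 f hf, sub_self]
      refine (Submodule.map_mono h8).trans ?_
      rw [Submodule.map_sup]
      refine sup_le le_rfl ?_
      rw [Submodule.mkQ_map_self]
      exact bot_le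
    have hfr : FiniteDimensional ℚ (LinearMap.range (mu n g)) := inferInstance
    have h10 : finrank ℚ ((pr mulF S U₀).map (ZZ (2 ^ k' + b * 2 ^ k')).mkQ) ≤
        finrank ℚ ((LinearMap.range (mu n g)).map (ZZ (2 ^ k' + b * 2 ^ k')).mkQ) :=
      Submodule.finrank_mono h7
    have h11 : finrank ℚ ((LinearMap.range (mu n g)).map (ZZ (2 ^ k' + b * 2 ^ k')).mkQ) ≤
        finrank ℚ (LinearMap.range (mu n g)) := Submodule.finrank_map_le _ _
    have h12 : finrank ℚ (LinearMap.range (mu n g)) ≤ n * g.natDegree := by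
      rw [← hcard]
      exact LinearMap.finrank_range_le _
    unfold dr
    exact h10.trans (h11.trans h12)
  obtain ⟨U, hUU, hU1, hU2⟩ := h1 ℚ (KK[X] →ₗ[KK] KK) KK[X] mulF ZZ S (2 ^ k') (2 ^ k') b (2 * d)
    (n * g.natDegree) U₀ hU₀f hS1 hdr (by rw [hU₀r, mul_assoc]; exact Nat.mul_le_mul_left 2 hN)
  have hUf : FiniteDimensional ℚ U := Submodule.finiteDimensional_of_le hUU
  have hUr : finrank ℚ U ≤ n * g.natDegree := by
    have h7 : finrank ℚ U ≤ finrank ℚ U₀ := Submodule.finrank_mono hUU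
    have h8 : finrank ℚ (LQ n g q k) ≤ n * g.natDegree := by
      rw [← hcard]
      exact Submodule.finrank_le _
    rw [hU₀r] at h7
    exact h7.trans h8
  obtain ⟨Φ, hΦ0, hΦd, hΦ⟩ := h2 q (2 ^ k') (2 ^ k') ((2 * d) ^ (b + 1) * (n * g.natDegree)) U
    ((pr mulF S)^[b + 1] U) hq (it_fin mulF S U hUf (b + 1)) (by
      intro u hu t ht e he
      rw [Function.iterate_succ_apply', map_mul]
      have h7 : mulF (hK e) u ∈ (pr mulF S)^[b] U := by
        refine mem_it h3 S q b k' ?_ U b le_rfl e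
          (lt_of_lt_of_le he (Nat.pow_le_pow_right (by norm_num) hk')) he u hu
        intro j hj a ha hja
        rw [hS, mem_image]
        refine ⟨h (2 ^ (q * j) * a), ?_, rfl⟩
        rw [hSZ, mem_union, mem_image, mem_image]
        right
        exact ⟨(j, a), by
          rw [mem_filter, mem_product, mem_range, mem_range]
          exact ⟨⟨hj, ha⟩, hja⟩, rfl⟩
      have h8 : (C (iK X ^ t) : KK[X]) ∈ S := by
        rw [hS, mem_image]
        refine ⟨C ((X : ℤ[X]) ^ t), ?_, ?_⟩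
        · rw [hSZ, mem_union, mem_image]
          left
          exact ⟨t, mem_range.2 ht, rfl⟩
        · rw [Polynomial.map_C, map_pow]
      exact mem_pr h8 h7) (hU2.trans (Nat.mul_le_mul_left _ hUr)) hM
  refine ⟨Φ, hΦ0, hΦd, hU1.trans (Nat.mul_le_mul_left _ ?_)⟩
  have h7 : (U.comap (mu n g)).map (mu n g) = U := by
    refine Submodule.map_comap_eq_of_le ?_
    refine hUU.trans ?_
    rw [hU₀]
    exact LinearMap.map_le_range
  have h8 : U.comap (mu n g) ≤ LL (mu n g) Φ (2 ^ k') := by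
    intro P hP
    rw [Submodule.mem_comap] at hP
    rw [mem_LL]
    rintro f ⟨f', rfl⟩ hf
    refine hΦ _ hP f' ?_
    by_cases hf0 : f' = 0
    · rw [hf0, degree_zero]; exact WithBot.bot_lt_coe _
    rw [degree_eq_natDegree (mul_ne_zero hΦ0 hf0), natDegree_mul hΦ0 hf0] at hf
    rw [degree_eq_natDegree hf0]
    have h9 : Φ.natDegree + f'.natDegree < 2 ^ k' := by exact_mod_cast hf
    exact_mod_cast (by omega : f'.natDegree < 2 ^ k')
  have h9 : finrank ℚ U = finrank ℚ (U.comap (mu n g)) := by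
    rw [← (Submodule.equivMapOfInjective (mu n g) hinj (U.comap (mu n g))).finrank_eq.symm, h7]
  rw [h9]
  exact Submodule.finrank_mono h8

end Pool.Agent.EDX.H38
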